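import Mathlib

/-! Three-valued Weil sums of binomials in characteristic two: the abstract argument. -/

open Finset

namespace Pool.Agent.Lib_helper11.Katz

section abs

variable {G : Type*} [CommGroup G] [Fintype G] [DecidableEq G]

/-- the identities satisfied by the sums `W a = ∑ x, χ (x ^ d + a x)` on the group of units -/
structure Dat (n : ℕ) (W E : G → ℤ) : Prop where
  card : Fintype.card G + 1 = 2 ^ n
  sW : ∑ g, W g = 2 ^ n
  cW : ∀ h, ∑ g, W g * W (g * h) = if h = 1 then (2 ^ n) ^ 2 else 0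
  sq : ∀ g, W g ^ 2 = ∑ u, E u * W (g * u⁻¹)
  E0 : ∀ g, 0 ≤ E g
  E2 : ∀ g, 2 ∣ E g
  sE : ∑ g, E g = 2 ^ n
  M2 : 2 ≤ E 1
  We : ∀ g, 2 ∣ W g

variable {n : ℕ} {W E : G → ℤ}

theorem Dat.corr3 (D : Dat n W E) (h : G) :
    ∑ g, W g ^ 2 * W (g * h) = (2 ^ n) ^ 2 * E h⁻¹ := by
  have h1 : ∀ g, W g ^ 2 * W (g * h) = ∑ u, E u * (W (g * u⁻¹) * W (g * h)) := by
    intro g
    rw [D.sq g, Finset.sum_mul]
    exact Finset.sum_congr rfl fun u _ => by ring
  simp_rw [h1]
  rw [Finset.sum_comm]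
  have h2 : ∀ u, ∑ g, E u * (W (g * u⁻¹) * W (g * h)) =
      E u * (if u * h = 1 then (2 ^ n) ^ 2 else 0) := by
    intro u
    rw [← Finset.mul_sum, ← D.cW (u * h)]
    congr 1
    rw [← Equiv.sum_comp (Equiv.mulRight u)]
    refine Finset.sum_congr rfl fun g _ => ?_
    simp [mul_assoc]
  simp_rw [h2]
  rw [Finset.sum_eq_single h⁻¹]
  · simp; ring
  · intro b _ hb
    rw [if_neg, mul_zero]
    intro h3
    exact hb (eq_inv_of_mul_eq_one_left h3)
  · simp

theorem Dat.P2 (D : Dat n W E) : ∑ g, W g ^ 2 = (2 ^ n) ^ 2 := by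
  have := D.cW 1
  simpa [pow_two] using this

theorem Dat.P3 (D : Dat n W E) : ∑ g, W g ^ 3 = (2 ^ n) ^ 2 * E 1 := by
  have := D.corr3 1
  simp only [mul_one, inv_one] at this
  rw [← this]
  exact Finset.sum_congr rfl fun g _ => by ring

theorem Dat.P4 (D : Dat n W E) : ∑ g, W g ^ 4 = (2 ^ n) ^ 2 * ∑ g, E g ^ 2 := by
  have h1 : ∀ g, W g ^ 4 = ∑ u, E u * (W g ^ 2 * W (g * u⁻¹)) := by
    intro g
    have : W g ^ 4 = W g ^ 2 * W g ^ 2 := by ring
    rw [this]
    nth_rewrite 2 [D.sq g]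
    rw [Finset.mul_sum]
    exact Finset.sum_congr rfl fun u _ => by ring
  simp_rw [h1]
  rw [Finset.sum_comm, Finset.mul_sum]
  refine Finset.sum_congr rfl fun u _ => ?_
  rw [← Finset.mul_sum, D.corr3, inv_inv]
  ring

/-- the key divisibility -/
theorem Dat.dvd (D : Dat n W E) {A B C : ℤ} (hW : ∀ g, W g = A ∨ W g = B ∨ W g = C)
    {h : G} (hh : h ≠ 1) : (A - B) * (A - C) ∣ (2 ^ n) ^ 2 * E h + 2 ^ n * (B * C) := by
  have hinv : h⁻¹ ≠ 1 := by simpa using hh
  have h1 : ∑ g, ((W g - B) * (W g - C)) * W (g * h⁻¹) =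
      (2 ^ n) ^ 2 * E h + 2 ^ n * (B * C) := by
    have e1 : ∀ g, ((W g - B) * (W g - C)) * W (g * h⁻¹) =
        W g ^ 2 * W (g * h⁻¹) - (B + C) * (W g * W (g * h⁻¹)) + (B * C) * W (g * h⁻¹) := by
      intro g; ring
    simp_rw [e1]
    rw [Finset.sum_add_distrib, Finset.sum_sub_distrib, ← Finset.mul_sum, ← Finset.mul_sum,
      D.corr3, D.cW, if_neg hinv, inv_inv]
    have e2 : ∑ g, W (g * h⁻¹) = 2 ^ n := by
      rw [← D.sW]
      exact Equiv.sum_comp (Equiv.mulRight h⁻¹) W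
    rw [e2]; ring
  rw [← h1]
  refine Finset.dvd_sum fun g _ => ?_
  rcases hW g with h | h | h
  · rw [h]; exact Dvd.intro _ rfl
  · rw [h]; simp
  · rw [h]; simp

theorem Dat.sq_le (D : Dat n W E) (g : G) : W g ^ 2 ≤ (2 ^ n) ^ 2 := by
  rw [← D.P2]
  exact Finset.single_le_sum (f := fun g => W g ^ 2) (fun i _ => sq_nonneg _) (mem_univ g)

theorem Dat.sq_lt (D : Dat n W E) {g g' : G} (hne : g ≠ g') (h0 : W g' ≠ 0) :
    W g ^ 2 < (2 ^ n) ^ 2 := by
  have h1 : W g ^ 2 + W g' ^ 2 ≤ (2 ^ n) ^ 2 := by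
    rw [← D.P2]
    have := Finset.sum_le_sum_of_subset_of_nonneg (f := fun g => W g ^ 2)
      (subset_univ ({g, g'} : Finset G)) (fun i _ _ => sq_nonneg _)
    rwa [Finset.sum_pair hne] at this
  have : 0 < W g' ^ 2 := by positivity
  linarith

end abs

/-- every nonzero integer is a power of two times an odd integer -/
theorem two_adic {A : ℤ} (hA : A ≠ 0) : ∃ (a : ℕ) (A' : ℤ), Odd A' ∧ A = 2 ^ a * A' := by
  obtain ⟨k, m, hm, h⟩ := Nat.exists_eq_two_pow_mul_odd (Int.natAbs_ne_zero.2 hA)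
  rcases Int.natAbs_eq A with h1 | h1
  · refine ⟨k, m, by exact_mod_cast hm, ?_⟩
    rw [h1, h]; push_cast; ring
  · refine ⟨k, -m, ?_, ?_⟩
    · simpa using (show Odd (m : ℤ) by exact_mod_cast hm)
    · rw [h1, h]; push_cast; ring

theorem pow_dvd_odd {k a : ℕ} {m : ℤ} (hm : Odd m) (h : (2:ℤ) ^ k ∣ 2 ^ a * m) : k ≤ a := by
  by_contra hlt
  push Not at hlt
  obtain ⟨c, hc⟩ := h
  have h1 : (2:ℤ) ^ a * m = 2 ^ a * (2 ^ (k - a) * c) := by
    rw [hc, ← mul_assoc, ← pow_add]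
    congr 2
    omega
  have h2 : m = 2 ^ (k - a) * c := mul_left_cancel₀ (by positivity) h1
  have h3 : (2:ℤ) ∣ m := by
    rw [h2]
    exact Dvd.dvd.mul_right (dvd_pow_self _ (by omega)) _
  exact (Int.not_even_iff_odd.2 hm) (even_iff_two_dvd.2 h3)

theorem odd_dvd_of_dvd_pow_mul {k : ℕ} {m x : ℤ} (hm : Odd m) (h : m ∣ 2 ^ k * x) : m ∣ x := by
  have : IsCoprime m ((2:ℤ) ^ k) := by
    refine IsCoprime.pow_right ?_
    obtain ⟨c, hc⟩ := hm
    exact ⟨1, -c, by rw [hc]; ring⟩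
  exact this.dvd_of_dvd_mul_left h

theorem pow_mul_dvd_cancel {k : ℕ} {m x : ℤ} (h : 2 ^ k * m ∣ x) : m ∣ x :=
  (Dvd.intro_left _ rfl).trans h

section T2

variable {G : Type*} [CommGroup G] [Fintype G] [DecidableEq G] {n : ℕ} {W E : G → ℤ}

/-- no odd prime divides all values -/
theorem Dat.coprime (D : Dat n W E) {A' B' : ℤ} {a b : ℕ} (hA' : Odd A')
    (hW : ∀ g, W g = 2 ^ a * A' ∨ W g = 2 ^ b * B' ∨ W g = 0) : IsCoprime A' B' := by
  rw [Int.isCoprime_iff_gcd_eq_one]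
  by_contra hne
  obtain ⟨p, hp, hpd⟩ := Nat.exists_prime_and_dvd hne
  have hpA : (p : ℤ) ∣ A' := (Int.natCast_dvd_natCast.2 hpd).trans (Int.gcd_dvd_left ..)
  have hpB : (p : ℤ) ∣ B' := (Int.natCast_dvd_natCast.2 hpd).trans (Int.gcd_dvd_right ..)
  have hall : ∀ g, (p : ℤ) ∣ W g := by
    intro g
    rcases hW g with h | h | h
    · rw [h]; exact hpA.mul_left _
    · rw [h]; exact hpB.mul_left _
    · rw [h]; exact dvd_zero _
  have h2 : (p : ℤ) ∣ (2 ^ n) ^ 2 := by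
    rw [← D.P2]
    exact Finset.dvd_sum fun g _ => (hall g).trans (dvd_pow_self _ two_ne_zero)
  have hpZ : Prime (p : ℤ) := Nat.prime_iff_prime_int.1 hp
  have h3 : (p : ℤ) ∣ 2 := hpZ.dvd_of_dvd_pow (hpZ.dvd_of_dvd_pow h2)
  have h4 : p ∣ 2 := by exact_mod_cast h3
  have h5 : p = 2 := (Nat.prime_dvd_prime_iff_eq hp Nat.prime_two).1 h4
  subst h5
  exact (Int.not_even_iff_odd.2 hA') (even_iff_two_dvd.2 (by exact_mod_cast hpA))

/-- the two nonzero values have opposite signs -/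
theorem Dat.neg (D : Dat n W E) {A B : ℤ} (hW : ∀ g, W g = A ∨ W g = B ∨ W g = 0)
    {gA gB : G} (hgA : W gA = A) (hgB : W gB = B) (hA : A ≠ 0) (hB : B ≠ 0) (hAB : A ≠ B) :
    A * B < 0 := by
  have hne : gA ≠ gB := by rintro rfl; exact hAB (hgA.symm.trans hgB)
  have hA2 : A ^ 2 < (2 ^ n) ^ 2 := by
    rw [← hgA]; exact D.sq_lt hne (by rwa [hgB])
  have hB2 : B ^ 2 < (2 ^ n) ^ 2 := by
    rw [← hgB]; exact D.sq_lt hne.symm (by rwa [hgA])
  have hAq : |A| < 2 ^ n := by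
    have := abs_lt_of_sq_lt_sq hA2 (by positivity)
    exact this
  have hBq : |B| < 2 ^ n := abs_lt_of_sq_lt_sq hB2 (by positivity)
  have hsum : ∑ g, W g * (2 ^ n - W g) = 0 := by
    have e1 : ∀ g, W g * (2 ^ n - W g) = 2 ^ n * W g - W g ^ 2 := fun g => by ring
    simp_rw [e1]
    rw [Finset.sum_sub_distrib, ← Finset.mul_sum, D.sW, D.P2]; ring
  rcases lt_or_gt_of_ne hA with hA0 | hA0 <;> rcases lt_or_gt_of_ne hB with hB0 | hB0
  · -- both negative
    exfalso
    have : ∑ g, W g ≤ 0 := Finset.sum_nonpos fun g _ => by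
      rcases hW g with h | h | h <;> rw [h] <;> linarith
    rw [D.sW] at this
    have : (0:ℤ) < 2 ^ n := by positivity
    linarith
  · nlinarith
  · nlinarith
  · exfalso
    have h1 : ∀ g, 0 ≤ W g * (2 ^ n - W g) := by
      intro g
      have hA3 := (abs_lt.1 hAq).2
      have hB3 := (abs_lt.1 hBq).2
      rcases hW g with h | h | h <;> rw [h]
      · nlinarith
      · nlinarith
      · simp
    have h2 := (Finset.sum_eq_zero_iff_of_nonneg (fun g _ => h1 g)).1 hsum gA (mem_univ _)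
    rw [hgA] at h2
    have hA3 := (abs_lt.1 hAq).2
    nlinarith

theorem Dat.T2 (D : Dat n W E) {A B : ℤ} (hW : ∀ g, W g = A ∨ W g = B ∨ W g = 0)
    {gA gB : G} (hgA : W gA = A) (hgB : W gB = B) (hA : A ≠ 0) (hB : B ≠ 0) (hAB : A ≠ B)
    {a b : ℕ} {A' B' : ℤ} (hA' : Odd A') (hB' : Odd B') (hAa : A = 2 ^ a * A')
    (hBb : B = 2 ^ b * B') (hab : a ≤ b) : n + 1 ≤ 2 * a := by
  have hneg := D.neg hW hgA hgB hA hB hAB
  have hq : (0:ℤ) < 2 ^ n := by positivity
  set μ : ℤ := E 1 - A - B with hμ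
  -- third moment
  have h3 : A * B = - (2 ^ n * μ) := by
    have hz : ∑ g, W g * ((W g - A) * (W g - B)) = 0 := by
      refine Finset.sum_eq_zero fun g _ => ?_
      rcases hW g with h | h | h <;> rw [h] <;> ring
    have e1 : ∀ g, W g * ((W g - A) * (W g - B)) = W g ^ 3 - (A + B) * W g ^ 2 + (A * B) * W g :=
      fun g => by ring
    simp_rw [e1] at hz
    rw [Finset.sum_add_distrib, Finset.sum_sub_distrib, ← Finset.mul_sum, ← Finset.mul_sum,
      D.P3, D.P2, D.sW] at hz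
    have : (2 ^ n : ℤ) * (A * B + 2 ^ n * μ) = 0 := by rw [hμ]; linarith
    rcases mul_eq_zero.1 this with h | h
    · exact absurd h hq.ne'
    · linarith
  have hμ0 : 0 < μ := by
    by_contra h
    push Not at h
    nlinarith
  have hμ2 : (2:ℤ) ∣ μ := by
    have hA2 : (2:ℤ) ∣ A := by rw [← hgA]; exact D.We _
    have hB2 : (2:ℤ) ∣ B := by rw [← hgB]; exact D.We _
    exact ((D.E2 1).sub hA2).sub hB2
  have hval : (2:ℤ) ^ n * μ = 2 ^ (a + b) * (-(A' * B')) := by
    have : A * B = 2 ^ (a + b) * (A' * B') := by rw [hAa, hBb, pow_add]; ring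
    linarith
  rcases hab.lt_or_eq with hlt | heq
  · -- a < b
    -- fourth moment
    have h4 : ∑ g, E g ^ 2 = (A + B) * E 1 - A * B := by
      have e1 : ∀ g, W g ^ 4 = (A + B) * W g ^ 3 - (A * B) * W g ^ 2 := by
        intro g
        rcases hW g with h | h | h <;> rw [h] <;> ring
      have hz := D.P4
      simp_rw [e1] at hz
      rw [Finset.sum_sub_distrib, ← Finset.mul_sum, ← Finset.mul_sum, D.P3, D.P2] at hz
      have hq2 : ((2:ℤ) ^ n) ^ 2 ≠ 0 := by positivity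
      apply mul_left_cancel₀ hq2
      linarith
    have h5 : ∑ g ∈ univ.erase (1 : G), E g * (E g - μ) = 0 := by
      have e1 := Finset.add_sum_erase univ (fun g => E g * (E g - μ)) (mem_univ (1 : G))
      have e2 : ∑ g, E g * (E g - μ) = ∑ g, E g ^ 2 - μ * ∑ g, E g := by
        rw [Finset.mul_sum, ← Finset.sum_sub_distrib]
        exact Finset.sum_congr rfl fun g _ => by ring
      rw [e2, h4, D.sE] at e1
      simp only [hμ] at e1 h3 ⊢
      linarith
    -- an element with 0 < E g ≤ μ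
    have h6 : ∃ g, g ≠ 1 ∧ 0 < E g ∧ E g ≤ μ := by
      by_contra hno
      push Not at hno
      have hterm : ∀ g ∈ univ.erase (1 : G), 0 ≤ E g * (E g - μ) := by
        intro g hg
        rcases (D.E0 g).lt_or_eq with h | h
        · have := hno g (Finset.ne_of_mem_erase hg) h
          nlinarith
        · rw [← h]; simp
      have hall := (Finset.sum_eq_zero_iff_of_nonneg hterm).1 h5
      have hE : ∀ g, g ≠ 1 → E g = 0 := by
        intro g hg
        have := hall g (Finset.mem_erase.2 ⟨hg, mem_univ _⟩)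
        rcases mul_eq_zero.1 this with h | h
        · exact h
        · by_contra hne
          have hpos : 0 < E g := lt_of_le_of_ne (D.E0 g) (Ne.symm hne)
          have := hno g hg hpos
          linarith
      have hsq : ∀ g, W g ^ 2 = E 1 * W g := by
        intro g
        rw [D.sq g, Finset.sum_eq_single 1]
        · simp
        · intro u _ hu
          rw [hE u hu, zero_mul]
        · simp
      have hA1 := hsq gA
      have hB1 := hsq gB
      rw [hgA] at hA1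
      rw [hgB] at hB1
      have hA3 : A = E 1 := mul_right_cancel₀ hA (by linarith [hA1, pow_two A])
      have hB3 : B = E 1 := mul_right_cancel₀ hB (by linarith [hB1, pow_two B])
      exact hAB (hA3.trans hB3.symm)
    obtain ⟨g, hg1, hg0, hgμ⟩ := h6
    -- divisibility
    set γ : ℤ := A' - 2 ^ (b - a) * B' with hγ
    have hγo : Odd γ := by
      rw [hγ]
      refine hA'.sub_even ?_
      have : Even ((2:ℤ) ^ (b - a)) := (even_two).pow_of_ne_zero (by omega)
      exact this.mul_right _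
    have hABγ : A - B = 2 ^ a * γ := by
      rw [hγ, hAa, hBb]
      have : (2:ℤ) ^ b = 2 ^ a * 2 ^ (b - a) := by rw [← pow_add]; congr 1; omega
      rw [this]; ring
    have d1 : A' * γ ∣ E g := by
      have h := D.dvd (A := A) (B := B) (C := 0) hW hg1
      simp only [mul_zero, add_zero, sub_zero] at h
      rw [hABγ, hAa] at h
      have h' : 2 ^ (a + a) * (A' * γ) ∣ 2 ^ (n * 2) * E g := by
        convert h using 1
        · rw [pow_add]; ring
        · rw [pow_mul]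
      exact odd_dvd_of_dvd_pow_mul (hA'.mul hγo) (pow_mul_dvd_cancel h')
    have d2 : B' * γ ∣ E g := by
      have h := D.dvd (A := B) (B := A) (C := 0) (fun g => by
        rcases hW g with h | h | h
        · exact Or.inr (Or.inl h)
        · exact Or.inl h
        · exact Or.inr (Or.inr h)) hg1
      simp only [mul_zero, add_zero, sub_zero] at h
      have hBA : B - A = -(2 ^ a * γ) := by rw [← hABγ]; ring
      rw [hBA, hBb] at h
      have h' : 2 ^ (a + b) * (B' * γ) ∣ 2 ^ (n * 2) * E g := by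
        have : 2 ^ (a + b) * (B' * γ) ∣ -(2 ^ a * γ) * (2 ^ b * B') :=
          ⟨-1, by rw [pow_add]; ring⟩
        refine this.trans (h.trans ?_)
        rw [pow_mul]
      exact odd_dvd_of_dvd_pow_mul (hB'.mul hγo) (pow_mul_dvd_cancel h')
    have hcop : IsCoprime A' B' := by
      refine D.coprime (a := a) (b := b) hA' fun g => ?_
      rw [← hAa, ← hBb]; exact hW g
    have hγ0 : γ ≠ 0 := by
      rintro h
      rw [h] at hγo
      exact (Int.not_even_iff_odd.2 hγo) (by simp)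
    have d3 : A' * B' * γ ∣ E g := by
      obtain ⟨e, he⟩ : γ ∣ E g := (Dvd.intro_left _ rfl).trans d1
      have x1 : A' ∣ e := by
        rw [he, mul_comm A' γ] at d1
        exact (mul_dvd_mul_iff_left hγ0).1 d1
      have x2 : B' ∣ e := by
        rw [he, mul_comm B' γ] at d2
        exact (mul_dvd_mul_iff_left hγ0).1 d2
      rw [he, mul_comm γ e]
      exact mul_dvd_mul_right (hcop.mul_dvd x1 x2) γ
    have d4 : 2 * (A' * B' * γ) ∣ E g := by
      have hc : IsCoprime (2:ℤ) (A' * B' * γ) := by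
        obtain ⟨c, hc⟩ := (hA'.mul hB').mul hγo
        exact ⟨-c, 1, by rw [hc]; ring⟩
      exact hc.mul_dvd (D.E2 g) d3
    have h7 : 2 * (|A' * B'| * |γ|) ≤ μ := by
      have h := Int.le_of_dvd hg0 ((abs_dvd _ _).2 d4)
      rw [abs_mul, abs_mul, abs_two] at h
      exact h.trans hgμ
    have hAB' : 0 < |A' * B'| := by
      rw [abs_pos]
      intro h
      rw [h, neg_zero, mul_zero] at hval
      have : 0 < (2:ℤ) ^ n * μ := by positivity
      linarith
    have h8 : (2:ℤ) ^ n * μ = 2 ^ (a + b) * |A' * B'| := by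
      have h9 : |(2:ℤ) ^ n * μ| = |2 ^ (a + b) * (-(A' * B'))| := by rw [hval]
      rw [abs_mul, abs_of_pos hq, abs_of_pos hμ0, abs_mul, abs_neg,
        abs_of_pos (show (0:ℤ) < 2 ^ (a + b) by positivity)] at h9
      exact h9
    have h10 : (2:ℤ) ^ (n + 1) * |γ| ≤ 2 ^ (a + b) := by
      have h11 : (2:ℤ) ^ n * (2 * (|A' * B'| * |γ|)) ≤ 2 ^ n * μ :=
        mul_le_mul_of_nonneg_left h7 hq.le
      rw [h8] at h11
      have h12 : |A' * B'| * ((2:ℤ) ^ (n + 1) * |γ|) ≤ |A' * B'| * 2 ^ (a + b) := by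
        calc |A' * B'| * ((2:ℤ) ^ (n + 1) * |γ|) = 2 ^ n * (2 * (|A' * B'| * |γ|)) := by
              rw [pow_succ]; ring
          _ ≤ _ := h11
          _ = _ := by ring
      exact le_of_mul_le_mul_left h12 hAB'
    have h13 : (2:ℤ) ^ b < 2 ^ a * |γ| := by
      have e1 : |A - B| = 2 ^ a * |γ| := by
        rw [hABγ, abs_mul, abs_of_pos (show (0:ℤ) < 2 ^ a by positivity)]
      rw [← e1]
      have e2 : |B| < |A - B| := by
        rcases lt_or_gt_of_ne hA with h | h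
        · have hB0 : 0 < B := by nlinarith
          rw [abs_of_pos hB0, abs_of_neg (by linarith)]; linarith
        · have hB0 : B < 0 := by nlinarith
          rw [abs_of_neg hB0, abs_of_pos (by linarith)]; linarith
      refine lt_of_le_of_lt ?_ e2
      rw [hBb, abs_mul, abs_of_pos (show (0:ℤ) < 2 ^ b by positivity)]
      have : 1 ≤ |B'| := Int.one_le_abs (by
        rintro h
        rw [h] at hB'
        exact (Int.not_even_iff_odd.2 hB') (by simp))
      nlinarith [show (0:ℤ) < 2 ^ b by positivity]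
    have h14 : (2:ℤ) ^ (n + 1 + b) < 2 ^ (a + b + a) := by
      calc (2:ℤ) ^ (n + 1 + b) = 2 ^ (n + 1) * 2 ^ b := by rw [pow_add]
        _ < 2 ^ (n + 1) * (2 ^ a * |γ|) := by
            exact mul_lt_mul_of_pos_left h13 (by positivity)
        _ = 2 ^ a * (2 ^ (n + 1) * |γ|) := by ring
        _ ≤ 2 ^ a * 2 ^ (a + b) := mul_le_mul_of_nonneg_left h10 (by positivity)
        _ = 2 ^ (a + b + a) := by rw [pow_add (2:ℤ) (a + b) a]; ring
    have h15 := (pow_lt_pow_iff_right₀ (by norm_num : (1:ℤ) < 2)).1 h14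
    omega
  · -- a = b
    obtain ⟨m, hm⟩ := hμ2
    have h9 : (2:ℤ) ^ (n + 1) ∣ 2 ^ (a + b) * (-(A' * B')) := by
      rw [← hval, hm]
      exact ⟨m, by rw [pow_succ]; ring⟩
    have := pow_dvd_odd (hA'.mul hB').neg h9
    omega

end T2

section T1

variable {G : Type*} [CommGroup G] [Fintype G] [DecidableEq G] {n : ℕ} {W E : G → ℤ}

theorem Dat.exists_zero (D : Dat n W E) (hn : 2 ≤ n) : ∃ g, g ≠ 1 ∧ E g = 0 := by
  by_contra hno
  push Not at hno
  have h1 : ∀ g ∈ univ.erase (1 : G), 2 ≤ E g := by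
    intro g hg
    have h := hno g (Finset.ne_of_mem_erase hg)
    have h0 := D.E0 g
    obtain ⟨e, he⟩ := D.E2 g
    omega
  have h2 := Finset.card_nsmul_le_sum _ _ _ h1
  have h3 := Finset.add_sum_erase univ (fun g => E g) (mem_univ (1 : G))
  simp only [D.sE] at h3
  rw [Finset.card_erase_of_mem (mem_univ _), Finset.card_univ] at h2
  have h4 := D.card
  have h5 := D.M2
  have h6 : (Fintype.card G : ℤ) + 1 = 2 ^ n := by exact_mod_cast h4
  have h7 : (4:ℤ) ≤ 2 ^ n := by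
    calc (4:ℤ) = 2 ^ 2 := by norm_num
      _ ≤ 2 ^ n := pow_le_pow_right₀ (by norm_num) hn
  have h8 : 1 ≤ Fintype.card G := Fintype.card_pos
  simp only [nsmul_eq_mul] at h2
  push_cast [Nat.cast_sub h8] at h2
  linarith

/-- one of the three values is zero -/
theorem Dat.T1 (D : Dat n W E) (hn : 2 ≤ n) {A B C : ℤ}
    (hW : ∀ g, W g = A ∨ W g = B ∨ W g = C)
    {gA gB gC : G} (hgA : W gA = A) (hgB : W gB = B) (hgC : W gC = C)
    (hA : A ≠ 0) (hB : B ≠ 0) (hC : C ≠ 0) (hAB : A ≠ B) (hAC : A ≠ C) (hBC : B ≠ C)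
    {a b c : ℕ} {A' B' C' : ℤ} (hA' : Odd A') (hB' : Odd B') (hC' : Odd C')
    (hAa : A = 2 ^ a * A') (hBb : B = 2 ^ b * B') (hCc : C = 2 ^ c * C')
    (hab : a ≤ b) (hbc : b ≤ c) : False := by
  have hq : (0:ℤ) < 2 ^ n := by positivity
  have hlow : ∀ {X : ℤ} {x : ℕ} {X' : ℤ}, Odd X' → X = 2 ^ x * X' → 2 ^ x ≤ |X| := by
    intro X x X' hX' hX
    rw [hX, abs_mul, abs_of_pos (show (0:ℤ) < 2 ^ x by positivity)]
    have : 1 ≤ |X'| := Int.one_le_abs (by
      rintro h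
      rw [h] at hX'
      exact (Int.not_even_iff_odd.2 hX') (by simp))
    nlinarith [show (0:ℤ) < 2 ^ x by positivity]
  have neBC : gC ≠ gB := by rintro rfl; exact hBC (hgB.symm.trans hgC)
  have hCq : |C| < 2 ^ n := by
    have hC2 : C ^ 2 < (2 ^ n) ^ 2 := by
      rw [← hgC]; exact D.sq_lt neBC (by rwa [hgB])
    exact abs_lt_of_sq_lt_sq hC2 (by positivity)
  have hcn : c < n := by
    have h := lt_of_le_of_lt (hlow hC' hCc) hCq
    exact (pow_lt_pow_iff_right₀ (by norm_num : (1:ℤ) < 2)).1 h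
  -- the cubic relation
  have h1 : A * B * C * (2 ^ n - 1) =
      2 ^ n * (2 ^ n * (E 1 - A - B - C) + (A * B + B * C + C * A)) := by
    have hz : ∑ g, (W g - A) * (W g - B) * (W g - C) = 0 := by
      refine Finset.sum_eq_zero fun g _ => ?_
      rcases hW g with h | h | h <;> rw [h] <;> ring
    have e1 : ∀ g, (W g - A) * (W g - B) * (W g - C) = W g ^ 3 - (A + B + C) * W g ^ 2 +
        (A * B + B * C + C * A) * W g - A * B * C := fun g => by ring
    simp_rw [e1] at hz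
    rw [Finset.sum_sub_distrib, Finset.sum_add_distrib, Finset.sum_sub_distrib,
      ← Finset.mul_sum, ← Finset.mul_sum, D.P3, D.P2, D.sW, Finset.sum_const, Finset.card_univ,
      nsmul_eq_mul] at hz
    have h6 : (Fintype.card G : ℤ) + 1 = 2 ^ n := by exact_mod_cast D.card
    have h7 : (Fintype.card G : ℤ) = 2 ^ n - 1 := by linarith
    rw [h7] at hz
    linarith
  have hodd : Odd ((2:ℤ) ^ n - 1) := by
    have : Even ((2:ℤ) ^ n) := even_two.pow_of_ne_zero (by omega)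
    exact this.sub_odd odd_one
  have hABC : A * B * C * (2 ^ n - 1) = 2 ^ (a + b + c) * (A' * B' * C' * (2 ^ n - 1)) := by
    rw [hAa, hBb, hCc, pow_add, pow_add]; ring
  have hoABC : Odd (A' * B' * C' * (2 ^ n - 1)) := ((hA'.mul hB').mul hC').mul hodd
  have he2 : (2:ℤ) ^ (a + b) ∣ A * B + B * C + C * A := by
    refine Dvd.dvd.add (Dvd.dvd.add ?_ ?_) ?_
    · rw [hAa, hBb, pow_add]; exact ⟨A' * B', by ring⟩
    · rw [hBb, hCc]
      refine (pow_dvd_pow 2 (show a + b ≤ b + c by omega)).trans ?_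
      rw [pow_add]; exact ⟨B' * C', by ring⟩
    · rw [hAa, hCc]
      refine (pow_dvd_pow 2 (show a + b ≤ c + a by omega)).trans ?_
      rw [pow_add]; exact ⟨C' * A', by ring⟩
  -- a + b > n
  have habn : n < a + b := by
    by_contra hle
    push Not at hle
    have : (2:ℤ) ^ (n + (a + b)) ∣ 2 ^ (a + b + c) * (A' * B' * C' * (2 ^ n - 1)) := by
      rw [← hABC, h1, pow_add]
      refine mul_dvd_mul_left _ (Dvd.dvd.add ?_ he2)
      exact (pow_dvd_pow 2 hle).mul_right _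
    have := pow_dvd_odd hoABC this
    omega
  have habc : 2 * n ≤ a + b + c := by
    have : (2:ℤ) ^ (n + n) ∣ 2 ^ (a + b + c) * (A' * B' * C' * (2 ^ n - 1)) := by
      rw [← hABC, h1, pow_add]
      refine mul_dvd_mul_left _ (Dvd.dvd.add (dvd_mul_right _ _) ?_)
      exact (pow_dvd_pow 2 habn.le).trans he2
    have := pow_dvd_odd hoABC this
    omega
  -- a ≤ n / 2
  have hlowA := hlow hA' hAa
  have hlowB := hlow hB' hBb
  have hlowC := hlow hC' hCc
  have hcard : (Fintype.card G : ℤ) = 2 ^ n - 1 := by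
    have : (Fintype.card G : ℤ) + 1 = 2 ^ n := by exact_mod_cast D.card
    linarith
  have h4q : (4:ℤ) ≤ 2 ^ n := by
    calc (4:ℤ) = 2 ^ 2 := by norm_num
      _ ≤ 2 ^ n := pow_le_pow_right₀ (by norm_num) hn
  have ha2 : 2 * a ≤ n := by
    by_contra hlt
    push Not at hlt
    have hsq : ∀ g ∈ (univ : Finset G), ((2:ℤ) ^ a) ^ 2 ≤ W g ^ 2 := by
      intro g _
      rw [sq_le_sq, abs_of_pos (show (0:ℤ) < 2 ^ a by positivity)]
      rcases hW g with h | h | h <;> rw [h]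
      · exact hlowA
      · exact (pow_le_pow_right₀ (by norm_num) hab).trans hlowB
      · exact (pow_le_pow_right₀ (by norm_num) (hab.trans hbc)).trans hlowC
    have h2 := Finset.card_nsmul_le_sum _ _ _ hsq
    rw [D.P2, Finset.card_univ, nsmul_eq_mul, hcard] at h2
    have h3 : (2:ℤ) * 2 ^ n ≤ (2 ^ a) ^ 2 := by
      calc (2:ℤ) * 2 ^ n = 2 ^ (n + 1) := by rw [pow_succ]; ring
        _ ≤ 2 ^ (a * 2) := pow_le_pow_right₀ (by norm_num) (by omega)
        _ = _ := by rw [pow_mul]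
    nlinarith
  have hb2 : n + 2 ≤ 2 * b := by omega
  -- A ^ 2 < q
  have hAq : A ^ 2 < 2 ^ n := by
    by_contra hge
    push Not at hge
    -- B ^ 2, C ^ 2 ≥ 4 q
    have hsqB : ∀ {X : ℤ} {x : ℕ}, b ≤ x → 2 ^ x ≤ |X| → 4 * 2 ^ n ≤ X ^ 2 := by
      intro X x hx hX
      have h5 : (2:ℤ) ^ b ≤ |X| := (pow_le_pow_right₀ (by norm_num) hx).trans hX
      calc (4:ℤ) * 2 ^ n = 2 ^ (n + 2) := by rw [pow_add]; ring
        _ ≤ 2 ^ (b * 2) := pow_le_pow_right₀ (by norm_num) (by omega)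
        _ = (2 ^ b) ^ 2 := by rw [pow_mul]
        _ ≤ |X| ^ 2 := pow_le_pow_left₀ (by positivity) h5 2
        _ = X ^ 2 := sq_abs X
    have hB4 := hsqB le_rfl hlowB
    have hC4 := hsqB hbc hlowC
    have hall : ∀ g ∈ (univ : Finset G), (2:ℤ) ^ n ≤ W g ^ 2 := by
      intro g _
      rcases hW g with h | h | h <;> rw [h] <;> linarith
    -- sum over all, with the extra from gB
    have h5 := Finset.add_sum_erase univ (fun g => W g ^ 2) (mem_univ gB)
    have h6 : ∀ g ∈ univ.erase gB, (2:ℤ) ^ n ≤ W g ^ 2 := fun g _ => hall g (mem_univ _)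
    have h7 := Finset.card_nsmul_le_sum _ _ _ h6
    rw [Finset.card_erase_of_mem (mem_univ _), Finset.card_univ, nsmul_eq_mul,
      Nat.cast_sub Fintype.card_pos, hcard] at h7
    simp only [D.P2, hgB] at h5
    push_cast at h7
    nlinarith
  -- 2 |A| < |B|, |C|
  have hAB2 : ∀ {X : ℤ} {x : ℕ}, b ≤ x → 2 ^ x ≤ |X| → |X| < 2 * |A - X| := by
    intro X x hx hX
    have h5 : (2:ℤ) ^ b ≤ |X| := (pow_le_pow_right₀ (by norm_num) hx).trans hX
    have h6 : (2 * |A|) ^ 2 < |X| ^ 2 := by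
      calc (2 * |A|) ^ 2 = 4 * A ^ 2 := by rw [mul_pow, sq_abs]; norm_num
        _ < 4 * 2 ^ n := by linarith
        _ = 2 ^ (n + 2) := by rw [pow_add]; ring
        _ ≤ 2 ^ (b * 2) := pow_le_pow_right₀ (by norm_num) (by omega)
        _ = (2 ^ b) ^ 2 := by rw [pow_mul]
        _ ≤ |X| ^ 2 := pow_le_pow_left₀ (by positivity) h5 2
    have h7 : 2 * |A| < |X| := lt_of_pow_lt_pow_left₀ 2 (abs_nonneg _) h6
    have h8 : |X| ≤ |A - X| + |A| := by
      have := abs_sub_abs_le_abs_sub X A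
      rw [abs_sub_comm X A] at this
      linarith
    linarith
  have hB3 := hAB2 le_rfl hlowB
  have hC3 := hAB2 hbc hlowC
  -- the divisibility
  obtain ⟨g, hg1, hg0⟩ := D.exists_zero hn
  have hd := D.dvd hW hg1
  rw [hg0, mul_zero, zero_add] at hd
  have halt : a < b := by omega
  set γ1 : ℤ := A' - 2 ^ (b - a) * B' with hγ1
  set γ2 : ℤ := A' - 2 ^ (c - a) * C' with hγ2
  have o1 : Odd γ1 := hA'.sub_even
    (((even_two (α := ℤ)).pow_of_ne_zero (by omega : b - a ≠ 0)).mul_right _)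
  have o2 : Odd γ2 := hA'.sub_even
    (((even_two (α := ℤ)).pow_of_ne_zero (by omega : c - a ≠ 0)).mul_right _)
  have e1 : A - B = 2 ^ a * γ1 := by
    rw [hγ1, hAa, hBb]
    have : (2:ℤ) ^ b = 2 ^ a * 2 ^ (b - a) := by rw [← pow_add]; congr 1; omega
    rw [this]; ring
  have e2 : A - C = 2 ^ a * γ2 := by
    rw [hγ2, hAa, hCc]
    have : (2:ℤ) ^ c = 2 ^ a * 2 ^ (c - a) := by rw [← pow_add]; congr 1; omega
    rw [this]; ring
  have hd2 : γ1 * γ2 ∣ B' * C' := by
    have h5 : 2 ^ (a + a) * (γ1 * γ2) ∣ 2 ^ (n + b + c) * (B' * C') := by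
      have h6 : 2 ^ (a + a) * (γ1 * γ2) = (A - B) * (A - C) := by
        rw [e1, e2, pow_add]; ring
      have h7 : 2 ^ (n + b + c) * (B' * C') = 2 ^ n * (B * C) := by
        rw [hBb, hCc, pow_add, pow_add]; ring
      rw [h6, h7]; exact hd
    exact odd_dvd_of_dvd_pow_mul (o1.mul o2) (pow_mul_dvd_cancel h5)
  have hBC0 : B' * C' ≠ 0 := by
    intro h
    have := hB'.mul hC'
    rw [h] at this
    exact (Int.not_even_iff_odd.2 this) (by simp)
  have hle : |γ1| * |γ2| ≤ |B'| * |C'| := by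
    rw [← abs_mul, ← abs_mul]
    exact Int.le_of_dvd (abs_pos.2 hBC0) ((abs_dvd_abs _ _).2 hd2)
  have aB : |B| = 2 ^ b * |B'| := by
    rw [hBb, abs_mul, abs_of_pos (show (0:ℤ) < 2 ^ b by positivity)]
  have aC : |C| = 2 ^ c * |C'| := by
    rw [hCc, abs_mul, abs_of_pos (show (0:ℤ) < 2 ^ c by positivity)]
  have a1 : |A - B| = 2 ^ a * |γ1| := by
    rw [e1, abs_mul, abs_of_pos (show (0:ℤ) < 2 ^ a by positivity)]
  have a2 : |A - C| = 2 ^ a * |γ2| := by
    rw [e2, abs_mul, abs_of_pos (show (0:ℤ) < 2 ^ a by positivity)]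
  have hB1 : 1 ≤ |B'| := Int.one_le_abs (left_ne_zero_of_mul hBC0)
  have hC1 : 1 ≤ |C'| := Int.one_le_abs (right_ne_zero_of_mul hBC0)
  -- |B| |C| < 4 |A - B| |A - C| = 4 ^ (a+1) |γ1 γ2| ≤ 4 ^ (a + 1) |B' C'|
  have h9 : 2 ^ (b + c) * (|B'| * |C'|) < 2 ^ (2 * a + 2) * (|B'| * |C'|) := by
    calc 2 ^ (b + c) * (|B'| * |C'|) = |B| * |C| := by rw [aB, aC, pow_add]; ring
      _ < (2 * |A - B|) * (2 * |A - C|) := by
          exact mul_lt_mul'' hB3 hC3 (abs_nonneg _) (abs_nonneg _)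
      _ = 2 ^ (2 * a + 2) * (|γ1| * |γ2|) := by
          rw [a1, a2, pow_add, pow_mul']; ring
      _ ≤ 2 ^ (2 * a + 2) * (|B'| * |C'|) := mul_le_mul_of_nonneg_left hle (by positivity)
  have h10 : (2:ℤ) ^ (b + c) < 2 ^ (2 * a + 2) := lt_of_mul_lt_mul_right h9 (by positivity)
  have h11 := (pow_lt_pow_iff_right₀ (by norm_num : (1:ℤ) < 2)).1 h10
  omega

end T1

section final

variable {G : Type*} [CommGroup G] [Fintype G] [DecidableEq G] {n : ℕ} {W E : G → ℤ}

theorem Dat.T2' (D : Dat n W E) {A B : ℤ} (hW : ∀ g, W g = A ∨ W g = B ∨ W g = 0)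
    {gA gB : G} (hgA : W gA = A) (hgB : W gB = B) (hA : A ≠ 0) (hB : B ≠ 0) (hAB : A ≠ B) :
    ∀ g, (2:ℤ) ^ (n / 2 + 1) ∣ W g := by
  obtain ⟨a, A', hA', hAa⟩ := two_adic hA
  obtain ⟨b, B', hB', hBb⟩ := two_adic hB
  have key : n + 1 ≤ 2 * a ∧ n + 1 ≤ 2 * b := by
    rcases le_total a b with h | h
    · have := D.T2 hW hgA hgB hA hB hAB hA' hB' hAa hBb h
      omega
    · have := D.T2 (fun g => by
        rcases hW g with h | h | h
        · exact Or.inr (Or.inl h)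
        · exact Or.inl h
        · exact Or.inr (Or.inr h)) hgB hgA hB hA hAB.symm hB' hA' hBb hAa h
      omega
  intro g
  rcases hW g with h | h | h <;> rw [h]
  · rw [hAa]
    exact (pow_dvd_pow 2 (by omega)).mul_right _
  · rw [hBb]
    exact (pow_dvd_pow 2 (by omega)).mul_right _
  · exact dvd_zero _

theorem Dat.T1' (D : Dat n W E) (hn : 2 ≤ n) {A B C : ℤ}
    (hW : ∀ g, W g = A ∨ W g = B ∨ W g = C)
    {gA gB gC : G} (hgA : W gA = A) (hgB : W gB = B) (hgC : W gC = C)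
    (hA : A ≠ 0) (hB : B ≠ 0) (hC : C ≠ 0) (hAB : A ≠ B) (hAC : A ≠ C) (hBC : B ≠ C) : False := by
  obtain ⟨a, A', hA', hAa⟩ := two_adic hA
  obtain ⟨b, B', hB', hBb⟩ := two_adic hB
  obtain ⟨c, C', hC', hCc⟩ := two_adic hC
  have hW2 : ∀ g, W g = A ∨ W g = C ∨ W g = B := fun g => by
    rcases hW g with h | h | h <;> simp [h]
  have hW3 : ∀ g, W g = B ∨ W g = A ∨ W g = C := fun g => by
    rcases hW g with h | h | h <;> simp [h]
  have hW4 : ∀ g, W g = B ∨ W g = C ∨ W g = A := fun g => by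
    rcases hW g with h | h | h <;> simp [h]
  have hW5 : ∀ g, W g = C ∨ W g = A ∨ W g = B := fun g => by
    rcases hW g with h | h | h <;> simp [h]
  have hW6 : ∀ g, W g = C ∨ W g = B ∨ W g = A := fun g => by
    rcases hW g with h | h | h <;> simp [h]
  rcases le_total a b with h1 | h1 <;> rcases le_total b c with h2 | h2 <;>
    rcases le_total a c with h3 | h3
  · exact D.T1 hn hW hgA hgB hgC hA hB hC hAB hAC hBC hA' hB' hC' hAa hBb hCc h1 h2
  · exact D.T1 hn hW hgA hgB hgC hA hB hC hAB hAC hBC hA' hB' hC' hAa hBb hCc h1 h2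
  · exact D.T1 hn hW2 hgA hgC hgB hA hC hB hAC hAB hBC.symm hA' hC' hB' hAa hCc hBb h3 h2
  · exact D.T1 hn hW5 hgC hgA hgB hC hA hB hAC.symm hBC.symm hAB hC' hA' hB' hCc hAa hBb h3 h1
  · exact D.T1 hn hW3 hgB hgA hgC hB hA hC hAB.symm hBC hAC hB' hA' hC' hBb hAa hCc h1 h3
  · exact D.T1 hn hW4 hgB hgC hgA hB hC hA hBC hAB.symm hAC.symm hB' hC' hA' hBb hCc hAa h2 h3
  · exact D.T1 hn hW6 hgC hgB hgA hC hB hA hBC.symm hAC.symm hAB.symm hC' hB' hA' hCc hBb hAa h2 h1
  · exact D.T1 hn hW6 hgC hgB hgA hC hB hA hBC.symm hAC.symm hAB.symm hC' hB' hA' hCc hBb hAa h2 h1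

/-- If `W` takes exactly three values, one of them is zero and all are divisible by
`2 ^ (n / 2 + 1)`. -/
theorem Dat.main (D : Dat n W E) (h3 : (Set.range W).ncard = 3) :
    (∃ g, W g = 0) ∧ ∀ g, (2:ℤ) ^ (n / 2 + 1) ∣ W g := by
  have hn : 2 ≤ n := by
    have h1 : (Set.range W).ncard ≤ Fintype.card G := by
      rw [← Set.image_univ]
      refine (Set.ncard_image_le).trans ?_
      rw [Set.ncard_univ, Nat.card_eq_fintype_card]
    have h2 := D.card
    by_contra hlt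
    interval_cases n
    · omega
    · omega
  obtain ⟨A, B, C, hAB, hAC, hBC, hr⟩ := Set.ncard_eq_three.1 h3
  have hW : ∀ g, W g = A ∨ W g = B ∨ W g = C := by
    intro g
    have : W g ∈ Set.range W := ⟨g, rfl⟩
    rw [hr] at this
    simpa using this
  have hW5 : ∀ g, W g = C ∨ W g = A ∨ W g = B := fun g => by
    rcases hW g with h | h | h <;> simp [h]
  have hW4 : ∀ g, W g = B ∨ W g = C ∨ W g = A := fun g => by
    rcases hW g with h | h | h <;> simp [h]
  obtain ⟨gA, hgA⟩ : A ∈ Set.range W := by rw [hr]; simp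
  obtain ⟨gB, hgB⟩ : B ∈ Set.range W := by rw [hr]; simp
  obtain ⟨gC, hgC⟩ : C ∈ Set.range W := by rw [hr]; simp
  by_cases hA : A = 0
  · subst hA
    exact ⟨⟨gA, hgA⟩, D.T2' hW4 hgB hgC hAB.symm hAC.symm hBC⟩
  by_cases hB : B = 0
  · subst hB
    exact ⟨⟨gB, hgB⟩, D.T2' hW5 hgC hgA hBC.symm hA hAC.symm⟩
  by_cases hC : C = 0
  · subst hC
    exact ⟨⟨gC, hgC⟩, D.T2' hW hgA hgB hA hB hAB⟩
  exact (D.T1' hn hW hgA hgB hgC hA hB hC hAB hAC hBC).elim

end final

end Pool.Agent.Lib_helper11.Katz
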