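import Pool.Agent.Lib_helper11.Katz.Abs

/-! Three-valued Weil sums of binomials in characteristic two: the sums over finite fields. -/

open Finset

namespace Pool.Agent.Lib_helper11.Katz

variable {F : Type*} [Field F] [Fintype F] [DecidableEq F] [CharP F 2]

/-- the Weil sum of the binomial `x ^ d + a x` -/
def WS (ψ : AddChar F ℤ) (d : ℕ) (a : F) : ℤ := ∑ x : F, ψ (x ^ d + a * x)

/-- number of solutions of `v ^ d + (v + 1) ^ d = g ^ d` -/
def ES (d : ℕ) (g : Fˣ) : ℤ := ((univ.filter fun v : F => v ^ d + (v + 1) ^ d = (g : F) ^ d).card : ℤ)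

theorem sum_mul (ψ : AddChar F ℤ) (hψ : ψ ≠ 1) (b : F) :
    ∑ x : F, ψ (x * b) = if b = 0 then (Fintype.card F : ℤ) else 0 := by
  have hp : ψ.IsPrimitive := AddChar.IsPrimitive.of_ne_one hψ
  have := AddChar.sum_mulShift b hp
  simpa using this

theorem pow_inj {d n : ℕ} (hcard : Fintype.card F = 2 ^ n) (hd : Nat.Coprime d (2 ^ n - 1))
    (hd0 : 0 < d) : Function.Injective (fun x : F => x ^ d) := by
  intro x y hxy
  simp only at hxy
  by_cases hx : x = 0
  · subst hx
    rw [zero_pow hd0.ne'] at hxy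
    exact (pow_eq_zero_iff hd0.ne').1 hxy.symm |>.symm
  by_cases hy : y = 0
  · subst hy
    rw [zero_pow hd0.ne'] at hxy
    exact (pow_eq_zero_iff hd0.ne').1 hxy
  have hc : Nat.card Fˣ = 2 ^ n - 1 := by
    rw [Nat.card_eq_fintype_card, Fintype.card_units, hcard]
  have hcop : (Nat.card Fˣ).Coprime d := by rw [hc]; exact hd.symm
  have h1 : (Units.mk0 x hx) ^ d = (Units.mk0 y hy) ^ d := by
    ext; simpa using hxy
  have h2 := (powCoprime hcop).injective (a₁ := Units.mk0 x hx) (a₂ := Units.mk0 y hy) (by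
    simpa [powCoprime] using h1)
  simpa using congrArg Units.val h2

theorem pow_bij {d n : ℕ} (hcard : Fintype.card F = 2 ^ n) (hd : Nat.Coprime d (2 ^ n - 1))
    (hd0 : 0 < d) : Function.Bijective (fun x : F => x ^ d) :=
  Finite.injective_iff_bijective.1 (pow_inj hcard hd hd0)

variable {d n : ℕ}

theorem WS_zero (ψ : AddChar F ℤ) (hψ : ψ ≠ 1) (hcard : Fintype.card F = 2 ^ n)
    (hd : Nat.Coprime d (2 ^ n - 1)) (hd0 : 0 < d) : WS ψ d 0 = 0 := by
  unfold WS
  simp only [zero_mul, add_zero]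
  rw [(pow_bij hcard hd hd0).sum_comp (fun y => ψ y)]
  have := sum_mul ψ hψ 1
  simpa using this

theorem sum_units (f : F → ℤ) (h0 : f 0 = 0) : ∑ g : Fˣ, f g = ∑ a : F, f a := by
  have h1 : ∑ a : F, f a = ∑ a ∈ univ.filter (fun a : F => a ≠ 0), f a := by
    rw [Finset.sum_filter]
    refine Finset.sum_congr rfl fun a _ => ?_
    by_cases ha : a = 0
    · simp [ha, h0]
    · simp [ha]
  rw [h1]
  refine Finset.sum_bij (fun g _ => (g : F)) (fun g _ => by simp) (fun g _ g' _ h => Units.ext h)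
    (fun a ha => ?_) (fun g _ => rfl)
  rw [Finset.mem_filter] at ha
  exact ⟨Units.mk0 a ha.2, mem_univ _, rfl⟩

theorem sum_WS (ψ : AddChar F ℤ) (hψ : ψ ≠ 1) (hd0 : 0 < d) :
    ∑ a : F, WS ψ d a = Fintype.card F := by
  unfold WS
  rw [Finset.sum_comm]
  have h1 : ∀ x : F, ∑ a : F, ψ (x ^ d + a * x) = ψ (x ^ d) * (if x = 0 then (Fintype.card F : ℤ) else 0) := by
    intro x
    rw [← sum_mul ψ hψ x, Finset.mul_sum]
    exact Finset.sum_congr rfl fun a _ => AddChar.map_add_eq_mul ψ _ _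
  simp_rw [h1]
  rw [Finset.sum_eq_single 0]
  · simp [hd0.ne']
  · intro b _ hb
    simp [hb]
  · simp

theorem sum_pow_mul (ψ : AddChar F ℤ) (hψ : ψ ≠ 1) (hcard : Fintype.card F = 2 ^ n)
    (hd : Nat.Coprime d (2 ^ n - 1)) (hd0 : 0 < d) (c : F) :
    ∑ y : F, ψ (y ^ d * c) = if c = 0 then (Fintype.card F : ℤ) else 0 := by
  rw [(pow_bij hcard hd hd0).sum_comp (fun y => ψ (y * c))]
  exact sum_mul ψ hψ c

theorem corr_WS (ψ : AddChar F ℤ) (hψ : ψ ≠ 1) (hcard : Fintype.card F = 2 ^ n)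
    (hd : Nat.Coprime d (2 ^ n - 1)) (hd0 : 0 < d) (h : F) :
    ∑ a : F, WS ψ d a * WS ψ d (a * h) = if h = 1 then (Fintype.card F : ℤ) ^ 2 else 0 := by
  have h1 : ∀ a : F, WS ψ d a * WS ψ d (a * h) =
      ∑ x : F, ∑ y : F, ψ (x ^ d + y ^ d) * ψ (a * (x + h * y)) := by
    intro a
    unfold WS
    rw [Finset.sum_mul_sum]
    refine Finset.sum_congr rfl fun x _ => Finset.sum_congr rfl fun y _ => ?_
    rw [← AddChar.map_add_eq_mul, ← AddChar.map_add_eq_mul]
    congr 1; ring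
  simp_rw [h1]
  rw [Finset.sum_comm]
  have h2 : ∀ x : F, ∑ a : F, ∑ y : F, ψ (x ^ d + y ^ d) * ψ (a * (x + h * y)) =
      ∑ y : F, ψ (x ^ d + y ^ d) * (if x + h * y = 0 then (Fintype.card F : ℤ) else 0) := by
    intro x
    rw [Finset.sum_comm]
    refine Finset.sum_congr rfl fun y _ => ?_
    rw [← Finset.mul_sum, sum_mul ψ hψ]
  simp_rw [h2]
  rw [Finset.sum_comm]
  have h3 : ∀ y : F, ∑ x : F, ψ (x ^ d + y ^ d) *
      (if x + h * y = 0 then (Fintype.card F : ℤ) else 0) =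
      ψ (y ^ d * (h ^ d + 1)) * Fintype.card F := by
    intro y
    rw [Finset.sum_eq_single (h * y)]
    · rw [if_pos (CharTwo.add_self_eq_zero _)]
      congr 2
      rw [mul_pow]; ring
    · intro b _ hb
      rw [if_neg, mul_zero]
      intro h4
      exact hb (CharTwo.add_eq_zero.1 h4)
    · simp
  simp_rw [h3]
  rw [← Finset.sum_mul, sum_pow_mul ψ hψ hcard hd hd0]
  have h5 : h ^ d + 1 = 0 ↔ h = 1 := by
    constructor
    · intro h6
      have h7 : h ^ d = 1 ^ d := by rw [one_pow]; exact CharTwo.add_eq_zero.1 h6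
      exact pow_inj hcard hd hd0 h7
    · rintro rfl
      rw [one_pow]; exact CharTwo.add_self_eq_zero _
  simp only [h5]
  split_ifs <;> ring

theorem D_ne_zero (hcard : Fintype.card F = 2 ^ n) (hd : Nat.Coprime d (2 ^ n - 1)) (hd0 : 0 < d)
    (v : F) : v ^ d + (v + 1) ^ d ≠ 0 := by
  intro h
  have h1 : v ^ d = (v + 1) ^ d := CharTwo.add_eq_zero.1 h
  have h2 : v = v + 1 := pow_inj hcard hd hd0 h1
  have : (1 : F) = 0 := by
    calc (1:F) = (v + 1) - v := by ring
      _ = 0 := by rw [← h2, sub_self]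
  exact one_ne_zero this

/-- the unit `δ v` with `(δ v) ^ d = v ^ d + (v + 1) ^ d` -/
theorem exists_delta (hcard : Fintype.card F = 2 ^ n) (hd : Nat.Coprime d (2 ^ n - 1))
    (hd0 : 0 < d) (v : F) : ∃ g : Fˣ, v ^ d + (v + 1) ^ d = (g : F) ^ d := by
  obtain ⟨x, hx⟩ := (pow_bij (F := F) hcard hd hd0).2 (v ^ d + (v + 1) ^ d)
  have hx0 : x ≠ 0 := by
    rintro rfl
    simp only [zero_pow hd0.ne'] at hx
    exact D_ne_zero hcard hd hd0 v hx.symm
  exact ⟨Units.mk0 x hx0, hx.symm⟩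

theorem fiber (hcard : Fintype.card F = 2 ^ n) (hd : Nat.Coprime d (2 ^ n - 1)) (hd0 : 0 < d)
    (δ : F → Fˣ) (hδ : ∀ v, v ^ d + (v + 1) ^ d = (δ v : F) ^ d) (f : Fˣ → ℤ) :
    ∑ u : Fˣ, ES d u * f u = ∑ v : F, f (δ v) := by
  have h1 : ∀ u : Fˣ, ES d u * f u = ∑ v ∈ univ.filter (fun v : F => δ v = u), f (δ v) := by
    intro u
    rw [Finset.sum_congr rfl (g := fun _ => f u) (fun v hv => by
      rw [(Finset.mem_filter.1 hv).2]), Finset.sum_const, nsmul_eq_mul]
    congr 1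
    unfold ES
    congr 2
    ext v
    simp only [Finset.mem_filter, mem_univ, true_and]
    rw [hδ v]
    constructor
    · intro h
      exact Units.ext (pow_inj hcard hd hd0 h)
    · rintro rfl; rfl
  simp_rw [h1]
  exact Finset.sum_fiberwise _ _ _

theorem WS_sq (ψ : AddChar F ℤ) (g : F) : WS ψ d g ^ 2 =
    ∑ z : F, ∑ v : F, ψ (((v ^ d + (v + 1) ^ d)) * z ^ d + g * z) := by
  have h1 : WS ψ d g ^ 2 = ∑ x : F, ∑ y : F, ψ (x ^ d + y ^ d + g * (x + y)) := by
    unfold WS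
    rw [pow_two, Finset.sum_mul_sum]
    refine Finset.sum_congr rfl fun x _ => Finset.sum_congr rfl fun y _ => ?_
    rw [← AddChar.map_add_eq_mul]
    congr 1; ring
  have h2 : ∀ x : F, ∑ y : F, ψ (x ^ d + y ^ d + g * (x + y)) =
      ∑ z : F, ψ (x ^ d + (x + z) ^ d + g * z) := by
    intro x
    rw [← Equiv.sum_comp (Equiv.addLeft x)]
    refine Finset.sum_congr rfl fun z _ => ?_
    simp only [Equiv.coe_addLeft]
    congr 2
    rw [← add_assoc, CharTwo.add_self_eq_zero, zero_add]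
  rw [h1]
  simp_rw [h2]
  rw [Finset.sum_comm]
  refine Finset.sum_congr rfl fun z _ => ?_
  by_cases hz : z = 0
  · subst hz
    by_cases hd0 : d = 0
    · subst hd0; simp
    · simp [hd0, CharTwo.add_self_eq_zero]
  · rw [← Equiv.sum_comp (Equiv.mulRight₀ z hz)]
    refine Finset.sum_congr rfl fun v _ => ?_
    simp only [Equiv.mulRight₀_apply]
    congr 1
    have : v * z + z = (v + 1) * z := by ring
    rw [this, mul_pow, mul_pow]; ring

theorem WS_scale (ψ : AddChar F ℤ) (g : F) (c : Fˣ) :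
    WS ψ d (g * (c⁻¹ : Fˣ)) = ∑ z : F, ψ ((c : F) ^ d * z ^ d + g * z) := by
  unfold WS
  rw [← Equiv.sum_comp (Equiv.mulLeft₀ (c : F) c.ne_zero)]
  refine Finset.sum_congr rfl fun z _ => ?_
  simp only [Equiv.mulLeft₀_apply]
  congr 1
  rw [mul_pow, Units.val_inv_eq_inv_val]
  field_simp

theorem psi_odd (ψ : AddChar F ℤ) (x : F) : Odd (ψ x) := by
  have h1 : ψ x * ψ x = 1 := by
    rw [← AddChar.map_add_eq_mul, CharTwo.add_self_eq_zero, AddChar.map_zero_eq_one]
  rcases mul_self_eq_one_iff.1 h1 with h | h <;> rw [h] <;> decide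

/-- the identities for the Weil sums -/
theorem dat (ψ : AddChar F ℤ) (hψ : ψ ≠ 1) (hcard : Fintype.card F = 2 ^ n)
    (hd : Nat.Coprime d (2 ^ n - 1)) (hd0 : 0 < d) :
    Dat n (fun a : Fˣ => WS ψ d a) (ES (F := F) d) := by
  have hn : n ≠ 0 := by
    rintro rfl
    have := Fintype.one_lt_card (α := F)
    omega
  have hcZ : (Fintype.card F : ℤ) = 2 ^ n := by exact_mod_cast hcard
  choose δ hδ using exists_delta (F := F) hcard hd hd0
  refine ⟨?_, ?_, ?_, ?_, ?_, ?_, ?_, ?_, ?_⟩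
  · rw [Fintype.card_units, hcard]
    have : 0 < 2 ^ n := by positivity
    omega
  · rw [sum_units (fun a => WS ψ d a) (WS_zero ψ hψ hcard hd hd0), sum_WS ψ hψ hd0, hcZ]
  · intro h
    have h1 := sum_units (fun a : F => WS ψ d a * WS ψ d (a * h)) (by
      simp [WS_zero ψ hψ hcard hd hd0])
    simp only [Units.val_mul]
    rw [h1, corr_WS ψ hψ hcard hd hd0, hcZ]
    simp
  · intro g
    simp only [Units.val_mul]
    rw [fiber hcard hd hd0 δ hδ (fun u => WS ψ d (g * (u⁻¹ : Fˣ))), WS_sq, Finset.sum_comm]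
    refine Finset.sum_congr rfl fun v _ => ?_
    rw [WS_scale, hδ v]
  · intro g
    unfold ES; positivity
  · intro g
    unfold ES
    have h1 : ((univ.filter fun v : F => v ^ d + (v + 1) ^ d = (g : F) ^ d).card : ZMod 2) = 0 := by
      rw [Finset.card_eq_sum_ones, Nat.cast_sum]
      refine Finset.sum_involution (fun v _ => v + 1) ?_ ?_ ?_ ?_
      · intro v _
        simp only [Nat.cast_one]
        decide
      · intro v _ _ h
        have : (1:F) = 0 := by
          calc (1:F) = (v + 1) - v := by ring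
            _ = 0 := by rw [h, sub_self]
        exact one_ne_zero this
      · intro v hv
        simp only [Finset.mem_filter, mem_univ, true_and] at hv ⊢
        rw [add_assoc, CharTwo.add_self_eq_zero, add_zero, ← hv, add_comm]
      · intro v _
        rw [add_assoc, CharTwo.add_self_eq_zero, add_zero]
    have h2 := (ZMod.natCast_eq_zero_iff _ 2).1 h1
    exact_mod_cast h2
  · have := fiber hcard hd hd0 δ hδ (fun _ => 1)
    simp only [mul_one, Finset.sum_const, Finset.card_univ, nsmul_eq_mul] at this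
    rw [this, hcZ]
  · unfold ES
    have h1 : ({0, 1} : Finset F) ⊆ univ.filter fun v : F => v ^ d + (v + 1) ^ d = ((1 : Fˣ) : F) ^ d := by
      intro v hv
      simp only [Finset.mem_insert, Finset.mem_singleton] at hv
      simp only [Finset.mem_filter, mem_univ, true_and, Units.val_one, one_pow]
      rcases hv with rfl | rfl
      · simp [hd0.ne']
      · rw [CharTwo.add_self_eq_zero]; simp [hd0.ne']
    have h2 := Finset.card_le_card h1
    rw [Finset.card_pair zero_ne_one] at h2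
    exact_mod_cast h2
  · intro g
    show (2:ℤ) ∣ WS ψ d g
    have h1 : ((WS ψ d g : ℤ) : ZMod 2) = 0 := by
      unfold WS
      rw [Int.cast_sum]
      have h2 : ∀ x : F, ((ψ (x ^ d + g * x) : ℤ) : ZMod 2) = 1 := by
        intro x
        obtain ⟨k, hk⟩ := psi_odd ψ (x ^ d + g * x)
        rw [hk]
        push_cast
        have : (2 : ZMod 2) = 0 := by decide
        rw [this]; ring
      simp_rw [h2]
      rw [Finset.sum_const, Finset.card_univ, hcard, nsmul_eq_mul, mul_one]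
      push_cast
      have : (2 : ZMod 2) = 0 := by decide
      rw [this, zero_pow hn]
    exact (ZMod.intCast_zmod_eq_zero_iff_dvd _ 2).1 h1

/-- **Three-valued Weil sums**: if `a ↦ ∑ x, ψ (x ^ d + a x)` takes exactly three values on the
nonzero elements, one of the values is zero and all are divisible by `2 ^ (n / 2 + 1)`. -/
theorem three_valued (ψ : AddChar F ℤ) (hψ : ψ ≠ 1) (hcard : Fintype.card F = 2 ^ n)
    (hd : Nat.Coprime d (2 ^ n - 1)) (hd0 : 0 < d)
    (h3 : {v : ℤ | ∃ a : F, a ≠ 0 ∧ v = WS ψ d a}.ncard = 3) :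
    (∃ a : F, a ≠ 0 ∧ WS ψ d a = 0) ∧ ∀ a : F, (2:ℤ) ^ (n / 2 + 1) ∣ WS ψ d a := by
  have hD := dat ψ hψ hcard hd hd0
  have hr : {v : ℤ | ∃ a : F, a ≠ 0 ∧ v = WS ψ d a} = Set.range (fun a : Fˣ => WS ψ d a) := by
    ext v
    constructor
    · rintro ⟨a, ha, rfl⟩
      exact ⟨Units.mk0 a ha, rfl⟩
    · rintro ⟨g, rfl⟩
      exact ⟨g, g.ne_zero, rfl⟩
  rw [hr] at h3
  obtain ⟨⟨g, hg⟩, hall⟩ := hD.main h3
  refine ⟨⟨g, g.ne_zero, hg⟩, fun a => ?_⟩
  by_cases ha : a = 0
  · subst ha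
    rw [WS_zero ψ hψ hcard hd hd0]
    exact dvd_zero _
  · exact hall (Units.mk0 a ha)

end Pool.Agent.Lib_helper11.Katz
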